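import Mathlib

set_option autoImplicit false

/-!
Problem MP_8f8c07_co.  The letter `a` is `false`, the letter `b` is `true`; finite words are
lists of booleans and infinite words are functions `ℕ → Bool`.
-/

namespace Pool.Agent.Results.MP_8f8c07_co.AbelianFivePowerFree

/-- `h` is a morphism of the free monoid on the two letters. -/
def IsMorphism (h : List Bool → List Bool) : Prop :=
  ∀ u v : List Bool, h (u ++ v) = h u ++ h v

/-- `w` is an abelian `k`-power: a concatenation of `k` nonempty words which are
anagrams of one another. -/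
def IsAbelianPower (k : ℕ) (w : List Bool) : Prop :=
  ∃ ws : List (List Bool), ws.length = k ∧ w = ws.flatten ∧
    (∀ x ∈ ws, x ≠ []) ∧ ∀ x ∈ ws, ∀ y ∈ ws, x.Perm y

/-- No factor of `w` is an abelian `k`-power. -/
def AbelianPowerFree (k : ℕ) (w : List Bool) : Prop :=
  ∀ u : List Bool, u <:+: w → ¬ IsAbelianPower k u

/-- `h` maps abelian `k`-power free words to abelian `k`-power free words. -/
def MorphismAbelianPowerFree (k : ℕ) (h : List Bool → List Bool) : Prop :=
  ∀ w : List Bool, AbelianPowerFree k w → AbelianPowerFree k (h w)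

/-- The factor of length `n` of the infinite word `W` starting at position `m`. -/
def factorAt (W : ℕ → Bool) (m n : ℕ) : List Bool :=
  (List.range n).map (fun i => W (m + i))

/-- `W` is the fixed point `h^ω(a)`: `h(a) = a u` with `u` nonempty, the lengths of `h^n(a)`
tend to infinity, and every `h^n(a)` is the initial segment of `W` of its length. -/
def IsFixedPointFromA (h : List Bool → List Bool) (W : ℕ → Bool) : Prop :=
  (∃ u : List Bool, u ≠ [] ∧ h [false] = false :: u) ∧
  Filter.Tendsto (fun n : ℕ => (h^[n] [false]).length) Filter.atTop Filter.atTop ∧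
  ∀ n : ℕ, h^[n] [false] = factorAt W 0 (h^[n] [false]).length

/-- image of a letter -/
def hc : Bool → List Bool
  | false => [false, false, true, false, false]
  | true => [true, false, true, false, true, false, true]

/-- the morphism `a ↦ aabaa`, `b ↦ bababab` -/
def hh (w : List Bool) : List Bool := w.flatMap hc

theorem hh_append (u v : List Bool) : hh (u ++ v) = hh u ++ hh v := by
  simp [hh, List.flatMap_append]

theorem hh_nil : hh [] = [] := rfl

theorem hh_cons (c : Bool) (w : List Bool) : hh (c :: w) = hc c ++ hh w := by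
  simp [hh]

/-- the residue of a word modulo 13 -/
def f (w : List Bool) : ZMod 13 := (w.count false : ZMod 13) + 9 * (w.count true : ZMod 13)

theorem f_append (u v : List Bool) : f (u ++ v) = f u + f v := by
  simp [f, List.count_append]; ring

theorem f_nil : f [] = 0 := by simp [f]

theorem f_hc (c : Bool) : f (hc c) = 0 := by
  cases c <;> decide

theorem f_hh (w : List Bool) : f (hh w) = 0 := by
  induction w with
  | nil => simp [hh_nil, f_nil]
  | cons c w ih => rw [hh_cons, f_append, f_hc, ih, add_zero]

/-- the proper initial segment of a block having a given residue -/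
def tbl (x : ZMod 13) : List Bool :=
  if x = 1 then [false] else
  if x = 2 then [false, false] else
  if x = 11 then [false, false, true] else
  if x = 12 then [false, false, true, false] else
  if x = 9 then [true] else
  if x = 10 then [true, false] else
  if x = 6 then [true, false, true] else
  if x = 7 then [true, false, true, false] else
  if x = 3 then [true, false, true, false, true] else
  if x = 4 then [true, false, true, false, true, false] else []

theorem tbl_hc : ∀ c : Bool, ∀ j : Fin 7, j.val < (hc c).length →
    tbl (f ((hc c).take j.val)) = (hc c).take j.val ∧ f ((hc c).take j.val) ≠ 5 := by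
  decide

theorem prefix_hh (w : List Bool) : ∀ P : List Bool, P <+: hh w →
    ∃ w1, w1 <+: w ∧ P = hh w1 ++ tbl (f P) ∧ f P ≠ 5 := by
  induction w with
  | nil =>
    intro P hP
    rw [hh_nil, List.prefix_nil] at hP
    subst hP
    exact ⟨[], List.prefix_rfl, by simp [hh_nil, f_nil, tbl]; decide, by rw [f_nil]; decide⟩
  | cons c w ih =>
    intro P hP
    rw [hh_cons] at hP
    rcases Nat.lt_or_ge P.length (hc c).length with hlt | hge
    · have hP' : P <+: hc c := List.prefix_of_prefix_length_le hP (List.prefix_append _ _) hlt.le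
      have hPt : P = (hc c).take P.length := List.prefix_iff_eq_take.mp hP'
      have h7 : P.length < 7 := by
        have : (hc c).length ≤ 7 := by cases c <;> simp [hc]
        omega
      have := tbl_hc c ⟨P.length, h7⟩ hlt
      simp only at this
      rw [← hPt] at this
      exact ⟨[], List.nil_prefix, by rw [hh_nil, List.nil_append]; exact this.1.symm, this.2⟩
    · obtain ⟨Q, hQ⟩ : hc c <+: P := List.prefix_of_prefix_length_le (List.prefix_append _ _) hP hge
      subst hQ
      have hQ' : Q <+: hh w := by
        rwa [List.prefix_append_right_inj] at hP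
      obtain ⟨w1, hw1, hQe, h5⟩ := ih Q hQ'
      have hf : f (hc c ++ Q) = f Q := by rw [f_append, f_hc, zero_add]
      refine ⟨c :: w1, ?_, ?_, ?_⟩
      · exact (List.cons_prefix_cons).mpr ⟨rfl, hw1⟩
      · rw [hf, hh_cons, List.append_assoc, ← hQe]
      · rw [hf]; exact h5

theorem count_false_hh (v : List Bool) :
    (hh v).count false = 4 * v.count false + 3 * v.count true := by
  induction v with
  | nil => simp [hh_nil]
  | cons c v ih =>
    rw [hh_cons, List.count_append, ih]
    cases c <;> simp [hc] <;> ring

theorem count_true_hh (v : List Bool) :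
    (hh v).count true = v.count false + 4 * v.count true := by
  induction v with
  | nil => simp [hh_nil]
  | cons c v ih =>
    rw [hh_cons, List.count_append, ih]
    cases c <;> simp [hc] <;> ring

theorem f_perm {x y : List Bool} (h : x.Perm y) : f x = f y := by
  simp [f, h.count_eq]

theorem hh_prefix {u v : List Bool} (h : u <+: v) : hh u <+: hh v := by
  obtain ⟨t, rfl⟩ := h
  rw [hh_append]
  exact List.prefix_append _ _

theorem exists_ne_of_zmod (a b : ZMod 13) (hb : b ≠ 0) : ∃ i : ℕ, i ≤ 12 ∧ a + (i : ZMod 13) * b = 5 := by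
  revert a b
  decide

/-- Chains of initial segments of `hh w` with the same residue come from `w`. -/
theorem desub_chain (w : List Bool) (n : ℕ) (P : ℕ → List Bool) (α : ZMod 13)
    (hP : ∀ i ≤ n, P i <+: hh w) (hα : ∀ i ≤ n, f (P i) = α)
    (hlt : ∀ i < n, (P i).length < (P (i + 1)).length) :
    ∃ (u v : ℕ → List Bool), (∀ i ≤ n, u i <+: w ∧ P i = hh (u i) ++ tbl α) ∧
      (∀ i < n, u (i + 1) = u i ++ v i ∧ v i ≠ []) := by
  have h1 : ∀ i, ∃ u, i ≤ n → (u <+: w ∧ P i = hh u ++ tbl α) := by
    intro i
    by_cases hi : i ≤ n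
    · obtain ⟨u, hu, hPu, -⟩ := prefix_hh w (P i) (hP i hi)
      rw [hα i hi] at hPu
      exact ⟨u, fun _ => ⟨hu, hPu⟩⟩
    · exact ⟨[], fun h => absurd h hi⟩
  choose u hu using h1
  have h2 : ∀ i, ∃ v, i < n → (u (i + 1) = u i ++ v ∧ v ≠ []) := by
    intro i
    by_cases hi : i < n
    · obtain ⟨hu1, hP1⟩ := hu i hi.le
      obtain ⟨hu2, hP2⟩ := hu (i + 1) hi
      have hl := hlt i hi
      rw [hP1, hP2] at hl
      simp only [List.length_append] at hl
      rcases Nat.le_total (u (i + 1)).length (u i).length with hle | hle
      · exfalso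
        have hp : u (i + 1) <+: u i := List.prefix_of_prefix_length_le hu2 hu1 hle
        have := (hh_prefix hp).length_le
        omega
      · have hp : u i <+: u (i + 1) := List.prefix_of_prefix_length_le hu1 hu2 hle
        obtain ⟨v, hv⟩ := hp
        refine ⟨v, fun _ => ⟨hv.symm, ?_⟩⟩
        rintro rfl
        rw [List.append_nil] at hv
        rw [hv] at hl
        omega
    · exact ⟨[], fun h => absurd h hi⟩
  choose v hv using h2
  exact ⟨u, v, fun i hi => hu i hi, fun i hi => hv i hi⟩

theorem chain_flatten (n : ℕ) (u v : ℕ → List Bool)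
    (huv : ∀ i < n, u (i + 1) = u i ++ v i) :
    ∀ k ≤ n, u 0 ++ ((List.range k).map v).flatten = u k := by
  intro k
  induction k with
  | zero => intro _; simp
  | succ k ih =>
    intro hk
    rw [List.range_succ, List.map_append, List.flatten_append, ← List.append_assoc, ih (by omega),
      huv k (by omega)]
    simp

theorem abelian_desub (w pre post : List Bool) (ws : List (List Bool))
    (hlen : ws.length = 12) (heq : pre ++ ws.flatten ++ post = hh w)
    (hne : ∀ x ∈ ws, x ≠ []) (hperm : ∀ x ∈ ws, ∀ y ∈ ws, x.Perm y) :
    ∃ vs : List (List Bool), vs.length = 12 ∧ vs.flatten <:+: w ∧ (∀ v ∈ vs, v ≠ []) ∧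
      ∀ v ∈ vs, ∀ v' ∈ vs, v.Perm v' := by
  set P : ℕ → List Bool := fun i => pre ++ (ws.take i).flatten with hPdef
  have hmem : ∀ (i : ℕ) (hi : i < 12), ws[i]'(by omega) ∈ ws := fun i hi => List.getElem_mem _
  have hsucc : ∀ (i : ℕ) (hi : i < 12), P (i + 1) = P i ++ ws[i]'(by omega) := by
    intro i hi
    simp only [hPdef]
    rw [List.take_add_one, List.getElem?_eq_getElem (by omega), List.flatten_append]
    simp
  set β : ZMod 13 := f (ws[0]'(by omega)) with hβ
  have hfw : ∀ (i : ℕ) (hi : i < 12), f (ws[i]'(by omega)) = β := by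
    intro i hi
    exact f_perm (hperm _ (hmem i hi) _ (hmem 0 (by omega)))
  have hpref : ∀ i, P i <+: hh w := by
    intro i
    rw [← heq]
    refine ⟨(ws.drop i).flatten ++ post, ?_⟩
    simp only [hPdef]
    rw [← List.append_assoc, List.append_assoc pre, ← List.flatten_append, List.take_append_drop]
  have hfP : ∀ i : ℕ, i ≤ 12 → f (P i) = f pre + (i : ZMod 13) * β := by
    intro i
    induction i with
    | zero => intro _; simp [hPdef]
    | succ i ih =>
      intro hi
      rw [hsucc i (by omega), f_append, ih (by omega), hfw i (by omega)]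
      push_cast
      ring
  have hβ0 : β = 0 := by
    by_contra hb
    obtain ⟨i, hi, h5⟩ := exists_ne_of_zmod (f pre) β hb
    obtain ⟨_, _, _, h⟩ := prefix_hh w (P i) (hpref i)
    exact h (by rw [hfP i hi, h5])
  have hα : ∀ i ≤ 12, f (P i) = f pre := by
    intro i hi
    rw [hfP i hi, hβ0, mul_zero, add_zero]
  have hlt : ∀ i < 12, (P i).length < (P (i + 1)).length := by
    intro i hi
    have e : (P (i + 1)).length = (P i).length + (ws[i]'(by omega)).length := by
      rw [hsucc i hi, List.length_append]
    have := List.length_pos_iff.mpr (hne _ (hmem i hi))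
    omega
  obtain ⟨u, v, hu, hv⟩ := desub_chain w 12 P (f pre) (fun i _ => hpref i) hα hlt
  have hcount : ∀ (c : Bool) (i : ℕ) (hi : i < 12),
      (hh (v i)).count c = (ws[i]'(by omega)).count c := by
    intro c i hi
    have e1 := hsucc i hi
    rw [(hu (i + 1) hi).2, (hu i hi.le).2, (hv i hi).1, hh_append] at e1
    have e2 := congrArg (List.count c) e1
    simp only [List.count_append] at e2
    omega
  have hcount' : ∀ (i j : ℕ) (hi : i < 12) (hj : j < 12) (c : Bool), (v i).count c = (v j).count c := by
    intro i j hi hj c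
    have hp := hperm _ (hmem i hi) _ (hmem j hj)
    have a1 := hcount false i hi
    have a2 := hcount false j hj
    have b1 := hcount true i hi
    have b2 := hcount true j hj
    rw [count_false_hh] at a1 a2
    rw [count_true_hh] at b1 b2
    have c1 := hp.count_eq false
    have c2 := hp.count_eq true
    cases c <;> omega
  refine ⟨(List.range 12).map v, by simp, ?_, ?_, ?_⟩
  · have := chain_flatten 12 u v (fun i hi => (hv i hi).1) 12 le_rfl
    obtain ⟨t, ht⟩ := (hu 12 le_rfl).1
    exact ⟨u 0, t, by rw [this, ht]⟩
  · intro x hx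
    obtain ⟨i, hi, rfl⟩ := List.mem_map.mp hx
    exact (hv i (List.mem_range.mp hi)).2
  · intro x hx y hy
    obtain ⟨i, hi, rfl⟩ := List.mem_map.mp hx
    obtain ⟨j, hj, rfl⟩ := List.mem_map.mp hy
    rw [List.perm_iff_count]
    intro c
    exact hcount' i j (List.mem_range.mp hi) (List.mem_range.mp hj) c

theorem hh_abelian12 : MorphismAbelianPowerFree 12 hh := by
  intro w hw x hx hpow
  obtain ⟨pre, post, hpp⟩ := hx
  obtain ⟨ws, hlen, hflat, hne, hperm⟩ := hpow
  subst hflat
  obtain ⟨vs, h1, h2, h3, h4⟩ := abelian_desub w pre post ws hlen hpp hne hperm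
  exact hw _ h2 ⟨vs, h1, rfl, h3, h4⟩

/-- no two consecutive letters `b` -/
def NoBB (w : List Bool) : Prop := w.IsChain (fun x y => ¬ (x = true ∧ y = true))

/-- no fifth power as a factor -/
def NP5 (w : List Bool) : Prop :=
  ∀ x : List Bool, x ≠ [] → ¬ (x ++ x ++ x ++ x ++ x) <:+: w

theorem noBB_factor {u w : List Bool} (h : u <:+: w) (hw : NoBB w) : NoBB u := by
  obtain ⟨s, t, rfl⟩ := h
  unfold NoBB at *
  rw [List.isChain_append] at hw
  have := hw.1
  rw [List.isChain_append] at this
  exact this.2.1

theorem noBB_aaa (w : List Bool) (h : NoBB w) : NoBB (w ++ [false, false, false]) := by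
  unfold NoBB at *
  rw [List.isChain_append]
  refine ⟨h, by simp, ?_⟩
  intro x _ y hy
  simp at hy
  subst hy
  simp

theorem noBB_hh (w : List Bool) (h : NoBB w) : NoBB (hh w) := by
  unfold NoBB at *
  induction w with
  | nil => simp [hh_nil]
  | cons c w ih =>
    rw [hh_cons, List.isChain_append]
    refine ⟨by cases c <;> simp [hc], ih (List.IsChain.tail h), ?_⟩
    intro x hx y hy
    cases w with
    | nil => simp [hh_nil] at hy
    | cons d w =>
      rw [List.isChain_cons_cons] at h
      have h1 := h.1
      rw [hh_cons] at hy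
      cases c <;> cases d <;> simp_all [hc]

theorem next_two (w : List Bool) : ∃ d e t, w ++ [false, false, false] = d :: e :: t := by
  match w with
  | [] => exact ⟨_, _, _, rfl⟩
  | [x] => exact ⟨_, _, _, rfl⟩
  | x :: y :: l => exact ⟨x, y, l ++ [false, false, false], rfl⟩

theorem window (w : List Bool) : ∀ P : List Bool, P <+: hh w → P.length < (hh w).length →
    ∃ (c1 c2 c3 : Bool) (j : ℕ) (t : List Bool), j < (hc c1).length ∧
      f P = f ((hc c1).take j) ∧ [c1, c2, c3] <:+: w ++ [false, false, false] ∧
      hh (w ++ [false, false, false]) = P ++ ((hc c1).drop j ++ hc c2 ++ hc c3 ++ t) := by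
  induction w with
  | nil => intro P _ h; simp [hh_nil] at h
  | cons c w ih =>
    intro P hP hl
    rw [hh_cons] at hP
    rcases Nat.lt_or_ge P.length (hc c).length with hlt | hge
    · have hP' : P <+: hc c := List.prefix_of_prefix_length_le hP (List.prefix_append _ _) hlt.le
      have hPt : P = (hc c).take P.length := List.prefix_iff_eq_take.mp hP'
      obtain ⟨d, e, t, hdt⟩ := next_two w
      refine ⟨c, d, e, P.length, hh t, hlt, by rw [← hPt], ?_, ?_⟩
      · rw [List.cons_append, hdt]
        exact ⟨[], t, rfl⟩
      · rw [List.cons_append, hdt, hh_cons, hh_cons, hh_cons]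
        conv_lhs => rw [← List.take_append_drop P.length (hc c), ← hPt]
        simp only [List.append_assoc]
    · obtain ⟨Q, hQ⟩ : hc c <+: P := List.prefix_of_prefix_length_le (List.prefix_append _ _) hP hge
      subst hQ
      have hQ' : Q <+: hh w := by
        rwa [List.prefix_append_right_inj] at hP
      have hl' : Q.length < (hh w).length := by
        rw [hh_cons] at hl
        simp only [List.length_append] at hl
        omega
      obtain ⟨c1, c2, c3, j, t, h1, h2, h3, h4⟩ := ih Q hQ' hl'
      refine ⟨c1, c2, c3, j, t, h1, ?_, ?_, ?_⟩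
      · rw [f_append, f_hc, zero_add, h2]
      · rw [List.cons_append]
        exact h3.trans (List.suffix_cons _ _).isInfix
      · rw [List.cons_append, hh_cons, h4]
        simp only [List.append_assoc]

theorem window_take (w : List Bool) (hw : NoBB w) (P y post : List Bool)
    (n : ℕ) (hn : y.length = n) (hn1 : 1 ≤ n) (hn8 : n ≤ 8)
    (h : P ++ y ++ post = hh w) :
    ∃ (c1 c2 c3 : Bool) (j : ℕ), j < (hc c1).length ∧ NoBB [c1, c2, c3] ∧
      f P = f ((hc c1).take j) ∧ y = ((hc c1).drop j ++ hc c2 ++ hc c3).take n := by
  have hP : P <+: hh w := by rw [← h, List.append_assoc]; exact List.prefix_append _ _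
  have hl : P.length < (hh w).length := by
    rw [← h]; simp only [List.length_append]; omega
  obtain ⟨c1, c2, c3, j, t, h1, h2, h3, h4⟩ := window w P hP hl
  refine ⟨c1, c2, c3, j, h1, ?_, h2, ?_⟩
  · exact noBB_factor h3 (noBB_aaa w hw)
  · rw [hh_append, ← h, List.append_assoc, List.append_assoc, List.append_cancel_left_eq] at h4
    have h5 := congrArg (List.take n) h4
    rw [List.take_append_of_le_length (by omega : n ≤ y.length),
      List.take_of_length_le (by omega : y.length ≤ n)] at h5
    rw [h5, List.take_append_of_le_length]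
    simp only [List.length_append, List.length_drop]
    have e2 : 5 ≤ (hc c2).length := by cases c2 <;> simp [hc]
    have e3 : 5 ≤ (hc c3).length := by cases c3 <;> simp [hc]
    omega

theorem window_check : ∀ c1 c2 c3 d1 d2 d3 : Bool, ∀ j k : Fin 7,
    ¬ (c1 = true ∧ c2 = true) → ¬ (c2 = true ∧ c3 = true) →
    ¬ (d1 = true ∧ d2 = true) → ¬ (d2 = true ∧ d3 = true) →
    j.val < (hc c1).length → k.val < (hc d1).length →
    ((hc c1).drop j.val ++ hc c2 ++ hc c3).take 8 = ((hc d1).drop k.val ++ hc d2 ++ hc d3).take 8 →
    f ((hc c1).take j.val) = f ((hc d1).take k.val) := by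
  decide +kernel

theorem window_check5 : ∀ c1 c2 c3 : Bool, ∀ j : Fin 7,
    ¬ (c1 = true ∧ c2 = true) → ¬ (c2 = true ∧ c3 = true) →
    j.val < (hc c1).length → ∀ c : Bool,
    ((hc c1).drop j.val ++ hc c2 ++ hc c3).take 5 ≠ [c, c, c, c, c] := by
  decide +kernel

theorem hc_length_le (c : Bool) : (hc c).length ≤ 7 := by cases c <;> simp [hc]

theorem noBB3 {c1 c2 c3 : Bool} (h : NoBB [c1, c2, c3]) :
    ¬ (c1 = true ∧ c2 = true) ∧ ¬ (c2 = true ∧ c3 = true) := by
  unfold NoBB at h
  simpa using h

theorem hh_injective : ∀ v v' : List Bool, hh v = hh v' → v = v' := by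
  intro v
  induction v with
  | nil =>
    intro v' h
    cases v' with
    | nil => rfl
    | cons c v' => rw [hh_cons, hh_nil] at h; cases c <;> simp [hc] at h
  | cons c v ih =>
    intro v' h
    cases v' with
    | nil => rw [hh_cons, hh_nil] at h; cases c <;> simp [hc] at h
    | cons d v' =>
      rw [hh_cons, hh_cons] at h
      cases c <;> cases d
      · rw [List.append_cancel_left_eq] at h; rw [ih v' h]
      · simp [hc] at h
      · simp [hc] at h
      · rw [List.append_cancel_left_eq] at h; rw [ih v' h]

theorem np5_hh (w : List Bool) (hw : NoBB w) (h5 : NP5 w) : NP5 (hh w) := by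
  intro x hx hin
  obtain ⟨pre, post, hpp⟩ := hin
  have hxl : 0 < x.length := List.length_pos_iff.mpr hx
  -- the residue of x vanishes
  have hfx : f x = 0 := by
    rcases Nat.lt_or_ge x.length 2 with h1 | h2
    · exfalso
      obtain ⟨c, rfl⟩ : ∃ c, x = [c] := by
        rw [← List.length_eq_one_iff]; omega
      obtain ⟨c1, c2, c3, j, hj, hnb, -, hy⟩ := window_take w hw pre [c, c, c, c, c] post 5 rfl
        (by omega) (by omega) (by simpa using hpp)
      have := hc_length_le c1
      exact window_check5 c1 c2 c3 ⟨j, by omega⟩ (noBB3 hnb).1 (noBB3 hnb).2 hj c hy.symm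
    · set y := (x ++ x ++ x ++ x).take 8 with hy
      have hyl : y.length = 8 := by
        rw [hy, List.length_take]
        simp only [List.length_append]
        omega
      have hsplit : y ++ (x ++ x ++ x ++ x).drop 8 = x ++ x ++ x ++ x := List.take_append_drop _ _
      have e0 : pre ++ y ++ ((x ++ x ++ x ++ x).drop 8 ++ x ++ post) = hh w := by
        rw [← hpp]
        calc pre ++ y ++ ((x ++ x ++ x ++ x).drop 8 ++ x ++ post)
            = pre ++ (y ++ (x ++ x ++ x ++ x).drop 8) ++ x ++ post := by
              simp only [List.append_assoc]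
          _ = _ := by rw [hsplit]; simp only [List.append_assoc]
      have e1 : (pre ++ x) ++ y ++ ((x ++ x ++ x ++ x).drop 8 ++ post) = hh w := by
        rw [← hpp]
        calc (pre ++ x) ++ y ++ ((x ++ x ++ x ++ x).drop 8 ++ post)
            = pre ++ x ++ (y ++ (x ++ x ++ x ++ x).drop 8) ++ post := by
              simp only [List.append_assoc]
          _ = _ := by rw [hsplit]; simp only [List.append_assoc]
      obtain ⟨c1, c2, c3, j, hj, hnb, hf, hyc⟩ := window_take w hw pre y _ 8 hyl
        (by omega) (by omega) e0
      obtain ⟨d1, d2, d3, k, hk, hnb', hf', hyd⟩ := window_take w hw (pre ++ x) y _ 8 hyl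
        (by omega) (by omega) e1
      have l1 := hc_length_le c1
      have l2 := hc_length_le d1
      have := window_check c1 c2 c3 d1 d2 d3 ⟨j, by omega⟩ ⟨k, by omega⟩ (noBB3 hnb).1 (noBB3 hnb).2
        (noBB3 hnb').1 (noBB3 hnb').2 hj hk (hyc.symm.trans hyd)
      simp only at this
      rw [← hf, ← hf', f_append] at this
      exact left_eq_add.mp this
  -- desubstitute
  set P : ℕ → List Bool := fun i => pre ++ (List.replicate i x).flatten with hPdef
  have hsucc : ∀ i, P (i + 1) = P i ++ x := by
    intro i
    simp only [hPdef]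
    rw [List.replicate_succ', List.flatten_append]
    simp
  have hpref5 : P 5 <+: hh w := by
    refine ⟨post, ?_⟩
    rw [← hpp]
    simp [hPdef, List.replicate_succ]
  have hpref : ∀ i ≤ 5, P i <+: hh w := by
    intro i hi
    refine List.IsPrefix.trans ?_ hpref5
    obtain ⟨m, hm⟩ := Nat.exists_eq_add_of_le hi
    refine ⟨(List.replicate m x).flatten, ?_⟩
    simp only [hPdef]
    rw [List.append_assoc, ← List.flatten_append, List.replicate_append_replicate, ← hm]
  have hα : ∀ i, f (P i) = f pre := by
    intro i
    induction i with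
    | zero => simp [hPdef]
    | succ i ih => rw [hsucc, f_append, ih, hfx, add_zero]
  have hlt : ∀ i < 5, (P i).length < (P (i + 1)).length := by
    intro i _
    have e : (P (i + 1)).length = (P i).length + x.length := by
      rw [hsucc, List.length_append]
    omega
  obtain ⟨u, v, hu, hv⟩ := desub_chain w 5 P (f pre) hpref (fun i _ => hα i) hlt
  have hvx : ∀ i < 5, hh (v i) ++ tbl (f pre) = tbl (f pre) ++ x := by
    intro i hi
    have e1 := hsucc i
    rw [(hu (i + 1) hi).2, (hu i hi.le).2, (hv i hi).1, hh_append, List.append_assoc,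
      List.append_assoc, List.append_cancel_left_eq] at e1
    exact e1
  have hveq : ∀ i < 5, v i = v 0 := by
    intro i hi
    apply hh_injective
    have e := (hvx i hi).trans (hvx 0 (by omega)).symm
    exact List.append_cancel_right e
  have hfl := chain_flatten 5 u v (fun i hi => (hv i hi).1) 5 le_rfl
  obtain ⟨t, ht⟩ := (hu 5 le_rfl).1
  refine h5 (v 0) (hv 0 (by omega)).2 ⟨u 0, t, ?_⟩
  rw [← ht, ← hfl]
  simp [List.range_succ, hveq 1 (by omega), hveq 2 (by omega), hveq 3 (by omega),
    hveq 4 (by omega)]

/-- the iterated images of the letter `a` -/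
def iter (n : ℕ) : List Bool := hh^[n] [false]

theorem iter_succ (n : ℕ) : iter (n + 1) = hh (iter n) := by
  unfold iter
  rw [Function.iterate_succ_apply']

theorem iter_props (n : ℕ) : NoBB (iter n) ∧ NP5 (iter n) := by
  induction n with
  | zero =>
    refine ⟨by simp [iter, NoBB], ?_⟩
    intro x hx h
    have := h.length_le
    have := List.length_pos_iff.mpr hx
    simp [iter] at *
    omega
  | succ n ih =>
    rw [iter_succ]
    exact ⟨noBB_hh _ ih.1, np5_hh _ ih.1 ih.2⟩

theorem iter_prefix_succ (n : ℕ) : iter n <+: iter (n + 1) := by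
  induction n with
  | zero =>
    rw [iter_succ]
    exact ⟨[false, true, false, false], rfl⟩
  | succ n ih =>
    rw [iter_succ n, iter_succ (n + 1)]
    exact hh_prefix ih

theorem iter_prefix {m n : ℕ} (h : m ≤ n) : iter m <+: iter n := by
  induction h with
  | refl => exact List.prefix_rfl
  | step _ ih => exact ih.trans (iter_prefix_succ _)

theorem hh_length (w : List Bool) : 5 * w.length ≤ (hh w).length := by
  induction w with
  | nil => simp [hh_nil]
  | cons c w ih =>
    rw [hh_cons, List.length_append, List.length_cons]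
    have : 5 ≤ (hc c).length := by cases c <;> simp [hc]
    omega

theorem iter_length (n : ℕ) : n + 1 ≤ (iter n).length := by
  induction n with
  | zero => simp [iter]
  | succ n ih =>
    rw [iter_succ]
    have := hh_length (iter n)
    omega

/-- the fixed point -/
def WW (i : ℕ) : Bool := (iter i).getD i false

theorem WW_eq (n i : ℕ) (hi : i < (iter n).length) : WW i = (iter n)[i] := by
  unfold WW
  have h1 := iter_length i
  rw [List.getD_eq_getElem _ _ (by omega)]
  rcases Nat.le_total i n with h | h
  · exact (iter_prefix h).getElem _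
  · exact ((iter_prefix h).getElem hi).symm

theorem iter_eq_factor (n m k : ℕ) (h : m + k ≤ (iter n).length) :
    factorAt WW m k = ((iter n).drop m).take k := by
  apply List.ext_getElem
  · simp [factorAt]; omega
  · intro i h1 h2
    simp only [factorAt, List.length_map, List.length_range] at h1
    simp only [factorAt, List.getElem_map, List.getElem_range, List.getElem_take,
      List.getElem_drop]
    exact WW_eq n (m + i) (by omega)

theorem factor_infix (m k : ℕ) : ∃ n, factorAt WW m k <:+: iter n := by
  refine ⟨m + k, ?_⟩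
  have h := iter_length (m + k)
  rw [iter_eq_factor (m + k) m k (by omega)]
  exact (List.take_prefix _ _).isInfix.trans (List.drop_suffix _ _).isInfix

theorem hh_morphism : IsMorphism hh := hh_append

theorem hh_fixed : IsFixedPointFromA hh WW := by
  refine ⟨⟨[false, true, false, false], by simp, rfl⟩, ?_, ?_⟩
  · apply Filter.tendsto_atTop_mono (f := fun n : ℕ => n)
    · intro n
      have := iter_length n
      unfold iter at this
      omega
    · exact Filter.tendsto_id
  · intro n
    have := iter_eq_factor n 0 (iter n).length (by omega)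
    rw [List.drop_zero, List.take_length] at this
    exact this.symm

/-- There are a morphism `h` of the binary free monoid and `k ≥ 2` such that `h` is abelian
`k`-power free, the fixed point `h^ω(a)` is defined, it contains no fifth power and no `bb`. -/
theorem result : ∃ (h : List Bool → List Bool) (k : ℕ) (W : ℕ → Bool),
    IsMorphism h ∧ 2 ≤ k ∧ MorphismAbelianPowerFree k h ∧ IsFixedPointFromA h W ∧
    (∀ (m : ℕ) (x : List Bool), x ≠ [] → factorAt W m (5 * x.length) ≠ x ++ x ++ x ++ x ++ x) ∧
    (∀ m : ℕ, factorAt W m 2 ≠ [true, true]) := by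
  refine ⟨hh, 12, WW, hh_morphism, by norm_num, hh_abelian12, hh_fixed, ?_, ?_⟩
  · intro m x hx he
    obtain ⟨n, hn⟩ := factor_infix m (5 * x.length)
    rw [he] at hn
    exact (iter_props n).2 x hx hn
  · intro m he
    obtain ⟨n, hn⟩ := factor_infix m 2
    rw [he] at hn
    have := noBB_factor hn (iter_props n).1
    simp [NoBB] at this

end Pool.Agent.Results.MP_8f8c07_co.AbelianFivePowerFree
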